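import Pool.Agent.BE01.StmtsC

/-!
BE01, module EIB: a Hilbert basis of eigenvectors of a compact positive operator.
-/

namespace Pool.Agent.BE01.H51

open Set Filter Topology MeasureTheory Module.End
open scoped InnerProductSpace ENNReal

noncomputable section

theorem eib : EibStmt := by
  intro H _ _ _ S hc hs hp
  have hsym : (S : H →ₗ[ℝ] H).IsSymmetric := hs
  have hmem : ∀ (μ : ℝ) (x : H), x ∈ eigenspace (S : Module.End ℝ H) μ ↔ S x = μ • x := by
    intro μ x
    exact mem_eigenspace_iff
  have hcl : ∀ μ : ℝ, IsClosed (eigenspace (S : Module.End ℝ H) μ : Set H) := by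
    intro μ
    have : (eigenspace (S : Module.End ℝ H) μ : Set H) = {x | S x = μ • x} := by
      ext x
      exact hmem μ x
    rw [this]
    exact isClosed_eq S.continuous (continuous_const_smul μ)
  have hcomp : ∀ μ : ℝ, CompleteSpace (eigenspace (S : Module.End ℝ H) μ) :=
    fun μ => (hcl μ).completeSpace_coe
  choose w b hb using fun μ : ℝ =>
    exists_hilbertBasis ℝ (eigenspace (S : Module.End ℝ H) μ)
  have hort := hsym.orthogonalFamily_eigenspaces
  have hv : Orthonormal ℝ fun a : Σ μ : ℝ, w μ =>
      ((a.2 : eigenspace (S : Module.End ℝ H) a.1) : H) := by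
    have h1 : ∀ μ, Orthonormal ℝ fun x : w μ => (x : eigenspace (S : Module.End ℝ H) μ) := by
      intro μ
      have := (b μ).orthonormal
      rwa [hb μ] at this
    exact hort.orthonormal_sigma_orthonormal h1
  have hbot : (Submodule.span ℝ (range fun a : Σ μ : ℝ, w μ =>
      ((a.2 : eigenspace (S : Module.End ℝ H) a.1) : H)))ᗮ = ⊥ := by
    rw [eq_bot_iff]
    intro h hh
    rw [← ContinuousLinearMap.orthogonalComplement_iSup_eigenspaces_eq_bot hc hsym,
      ← Submodule.iInf_orthogonal, Submodule.mem_iInf]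
    intro μ
    rw [Submodule.mem_orthogonal']
    intro x hx
    let f : eigenspace (S : Module.End ℝ H) μ →L[ℝ] ℝ :=
      (innerSL ℝ h).comp (eigenspace (S : Module.End ℝ H) μ).subtypeL
    have h1 : Submodule.span ℝ (range (b μ)) ≤ LinearMap.ker f.toLinearMap := by
      rw [Submodule.span_le]
      rintro _ ⟨y, rfl⟩
      rw [hb μ]
      have h2 := (Submodule.mem_orthogonal' _ _).1 hh _
        (Submodule.subset_span ⟨(⟨μ, y⟩ : Σ μ : ℝ, w μ), rfl⟩)
      exact h2
    have h3 := Submodule.topologicalClosure_minimal _ h1 f.isClosed_ker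
    rw [(b μ).dense_span] at h3
    exact h3 (Submodule.mem_top (x := (⟨x, hx⟩ : eigenspace (S : Module.End ℝ H) μ)))
  refine ⟨_, HilbertBasis.mkOfOrthogonalEqBot hv hbot, fun a => a.1, ?_, ?_⟩
  · intro a
    have h1 : S ((a.2 : eigenspace (S : Module.End ℝ H) a.1) : H) =
        a.1 • ((a.2 : eigenspace (S : Module.End ℝ H) a.1) : H) := (hmem _ _).1 (Subtype.prop _)
    have h2 := hv.1 a
    have h3 : ((a.2 : eigenspace (S : Module.End ℝ H) a.1) : H) ≠ 0 := by
      intro h
      simp only at h2
      rw [h, norm_zero] at h2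
      exact zero_ne_one h2
    have h4 := hp _ h3
    rw [h1, real_inner_smul_left, real_inner_self_eq_norm_sq] at h4
    simp only at h2
    rw [h2] at h4
    simpa using h4
  · intro a
    rw [HilbertBasis.coe_mkOfOrthogonalEqBot]
    exact (hmem _ _).1 (Subtype.prop _)

end

end Pool.Agent.BE01.H51
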