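import Pool.Agent.BE01.StmtsC

/-!
BE01, module SOB: the Sobolev inequality in dimension 2 and 3.
-/

namespace Pool.Agent.BE01.H51

open Set Filter Topology MeasureTheory
open scoped InnerProductSpace ENNReal NNReal

noncomputable section

theorem norm_grad {d : ℕ} (ψ : En d → ℝ) (x : En d) : ‖gradient ψ x‖ = ‖fderiv ℝ ψ x‖ := by
  unfold gradient
  exact LinearIsometryEquiv.norm_map _ _

theorem sob_aux (d : ℕ) (Ω : Set (En d)) (hΩ : Dom Ω) (p : ℝ≥0) (hp1 : 1 ≤ p) (hp2 : p ≤ 2)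
    (hpd : (p : ℝ) < d) (hpq : (p : ℝ)⁻¹ - (d : ℝ)⁻¹ ≤ (6 : ℝ)⁻¹) : ∃ C : ℝ, 0 < C ∧
    ∀ ψ, Tst Ω ψ → eLpNorm ψ 6 (mu Ω) ≤ ENNReal.ofReal C * eLpNorm (gradient ψ) 2 (mu Ω) := by
  have hfr : Module.finrank ℝ (En d) = d := by simp
  have hfin : IsFiniteMeasure (mu Ω) := by
    refine ⟨?_⟩
    rw [mu, Measure.restrict_apply_univ]
    exact hΩ.2.1.measure_lt_top
  let K : ℝ≥0∞ := (eLpNormLESNormFDerivOfLeConst ℝ (volume : Measure (En d)) Ω p 6 : ℝ≥0∞) *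
    (mu Ω univ) ^ (1 / (p : ℝ≥0∞).toReal - 1 / (2 : ℝ≥0∞).toReal)
  have hexp : 0 ≤ 1 / (p : ℝ≥0∞).toReal - 1 / (2 : ℝ≥0∞).toReal := by
    rw [ENNReal.coe_toReal, ENNReal.toReal_ofNat, sub_nonneg]
    have h1 : (0 : ℝ) < p := lt_of_lt_of_le one_pos (by exact_mod_cast hp1)
    have h2 : (p : ℝ) ≤ 2 := by exact_mod_cast hp2
    exact one_div_le_one_div_of_le h1 h2
  have hK : K ≠ ∞ :=
    ENNReal.mul_ne_top ENNReal.coe_ne_top
      (ENNReal.rpow_ne_top_of_nonneg hexp (measure_ne_top _ _))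
  refine ⟨K.toReal + 1, by positivity, fun ψ hψ => ?_⟩
  have hsup : Function.support ψ ⊆ Ω := (subset_tsupport ψ).trans hψ.2.2
  have hc1 : ContDiff ℝ 1 ψ := hψ.1.of_le (by exact_mod_cast le_top)
  have hsup' : Function.support (fderiv ℝ ψ) ⊆ Ω := (support_fderiv_subset ℝ).trans hψ.2.2
  have hcont : Continuous (fderiv ℝ ψ) := hc1.continuous_fderiv one_ne_zero
  have h1 : eLpNorm ψ 6 (mu Ω) ≤ eLpNorm ψ 6 volume :=
    eLpNorm_mono_measure ψ Measure.restrict_le_self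
  have h2 : eLpNorm ψ ((6 : ℝ≥0) : ℝ≥0∞) volume ≤
      eLpNormLESNormFDerivOfLeConst ℝ (volume : Measure (En d)) Ω p 6 *
        eLpNorm (fderiv ℝ ψ) p volume := by
    refine eLpNorm_le_eLpNorm_fderiv_of_le volume hc1 hsup hp1 ?_ ?_ hΩ.2.1
    · rw [hfr]
      exact_mod_cast hpd
    · rw [hfr]
      exact_mod_cast hpq
  have h6 : ((6 : ℝ≥0) : ℝ≥0∞) = 6 := by norm_num
  rw [h6] at h2
  have h3 : eLpNorm (fderiv ℝ ψ) p volume = eLpNorm (fderiv ℝ ψ) p (mu Ω) := by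
    have h31 : Function.support (fun x => ‖fderiv ℝ ψ x‖) ⊆ Ω := by
      intro x hx
      exact hsup' fun h => hx (norm_eq_zero.2 h)
    have h32 := eLpNorm_restrict_eq_of_support_subset (μ := volume) (p := (p : ℝ≥0∞)) h31
    rw [← eLpNorm_norm (fderiv ℝ ψ), ← h32, eLpNorm_norm, mu]
  have h4 : eLpNorm (fderiv ℝ ψ) p (mu Ω) ≤ eLpNorm (fderiv ℝ ψ) 2 (mu Ω) *
      (mu Ω univ) ^ (1 / (p : ℝ≥0∞).toReal - 1 / (2 : ℝ≥0∞).toReal) :=
    eLpNorm_le_eLpNorm_mul_rpow_measure_univ (by exact_mod_cast hp2)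
      hcont.aestronglyMeasurable
  have h5 : eLpNorm (fderiv ℝ ψ) 2 (mu Ω) = eLpNorm (gradient ψ) 2 (mu Ω) :=
    eLpNorm_congr_norm_ae (Eventually.of_forall fun x => (norm_grad ψ x).symm)
  have hKle : K ≤ ENNReal.ofReal (K.toReal + 1) := by
    rw [← ENNReal.ofReal_toReal hK, ENNReal.toReal_ofReal ENNReal.toReal_nonneg]
    exact ENNReal.ofReal_le_ofReal (by linarith)
  rw [h3] at h2
  rw [h5] at h4
  refine (h1.trans h2).trans ((mul_le_mul_right h4 _).trans ?_)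
  rw [mul_comm (eLpNorm (gradient ψ) 2 (mu Ω)), ← mul_assoc]
  exact mul_le_mul_left hKle _

theorem sob : SobStmt := by
  intro d Ω hd hΩ
  rcases hd with rfl | rfl
  · refine sob_aux 2 Ω hΩ (3 / 2) ?_ ?_ ?_ ?_
    · rw [← NNReal.coe_le_coe]; push_cast; norm_num
    · rw [← NNReal.coe_le_coe]; push_cast; norm_num
    · push_cast; norm_num
    · push_cast; norm_num
  · refine sob_aux 3 Ω hΩ 2 ?_ ?_ ?_ ?_
    · rw [← NNReal.coe_le_coe]; push_cast; norm_num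
    · rw [← NNReal.coe_le_coe]
    · push_cast; norm_num
    · push_cast; norm_num

end

end Pool.Agent.BE01.H51
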