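import Pool.Agent.BE01.StmtsS

/-!
BE01, module PRU: existence of the phase and the amplitude of Pruefer.
-/

namespace Pool.Agent.BE01.H51

open Set Filter Topology MeasureTheory
open scoped InnerProductSpace ENNReal NNReal

noncomputable section

theorem sin_sq_lip (a b : ℝ) : |Real.sin a ^ 2 - Real.sin b ^ 2| ≤ 2 * |a - b| := by
  have h1 : Real.sin a ^ 2 - Real.sin b ^ 2 = (Real.sin a - Real.sin b) *
      (Real.sin a + Real.sin b) := by ring
  rw [h1, abs_mul]
  have h2 : |Real.sin a - Real.sin b| ≤ |a - b| := by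
    have := Real.abs_sin_sub_sin_le a b
    exact this
  have h3 : |Real.sin a + Real.sin b| ≤ 2 := by
    calc |Real.sin a + Real.sin b| ≤ |Real.sin a| + |Real.sin b| := abs_add_le _ _
      _ ≤ 1 + 1 := add_le_add (Real.abs_sin_le_one _) (Real.abs_sin_le_one _)
      _ = 2 := by norm_num
  calc |Real.sin a - Real.sin b| * |Real.sin a + Real.sin b| ≤ |a - b| * 2 :=
        mul_le_mul h2 h3 (abs_nonneg _) (abs_nonneg _)
    _ = 2 * |a - b| := mul_comm _ _

theorem exists_phase (c ω r0 r1 : ℝ) (hr0 : 0 < r0) (hr : r0 < r1) (hω : 0 < ω) :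
    ∃ θ : ℝ → ℝ, θ r0 = 0 ∧ ∀ r ∈ Icc r0 r1,
      HasDerivWithinAt θ (ω - c / (ω * r ^ 2) * Real.sin (θ r) ^ 2) (Icc r0 r1) r := by
  have hq : ∀ r ∈ Icc r0 r1, |c / (ω * r ^ 2)| ≤ |c| / (ω * r0 ^ 2) := by
    intro r h
    have h1 : 0 < ω * r0 ^ 2 := by positivity
    have h2 : ω * r0 ^ 2 ≤ ω * r ^ 2 :=
      mul_le_mul_of_nonneg_left (pow_le_pow_left₀ hr0.le h.1 2) hω.le
    rw [abs_div, abs_of_pos (h1.trans_le h2)]
    exact div_le_div_of_nonneg_left (abs_nonneg c) h1 h2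
  have hQ : 0 ≤ |c| / (ω * r0 ^ 2) := by positivity
  let Q : ℝ≥0 := ⟨|c| / (ω * r0 ^ 2), hQ⟩
  let L : ℝ≥0 := ⟨ω, hω.le⟩ + Q
  let a : ℝ≥0 := L * ⟨r1 - r0, (sub_pos.2 hr).le⟩
  have hpl : IsPicardLindelof (fun (r θ : ℝ) => ω - c / (ω * r ^ 2) * Real.sin θ ^ 2)
      (⟨r0, left_mem_Icc.2 hr.le⟩ : Icc r0 r1) (0 : ℝ) a 0 L (2 * Q) := by
    refine ⟨?_, ?_, ?_, ?_⟩
    · intro r h
      refine LipschitzOnWith.of_dist_le_mul fun x _ y _ => ?_
      rw [Real.dist_eq, Real.dist_eq]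
      have h1 : ω - c / (ω * r ^ 2) * Real.sin x ^ 2 - (ω - c / (ω * r ^ 2) * Real.sin y ^ 2) =
          -(c / (ω * r ^ 2) * (Real.sin x ^ 2 - Real.sin y ^ 2)) := by ring
      rw [h1, abs_neg, abs_mul]
      calc |c / (ω * r ^ 2)| * |Real.sin x ^ 2 - Real.sin y ^ 2| ≤
            |c| / (ω * r0 ^ 2) * (2 * |x - y|) :=
          mul_le_mul (hq r h) (sin_sq_lip x y) (abs_nonneg _) hQ
        _ = ((2 * Q : ℝ≥0) : ℝ) * |x - y| := by
          show _ = (2 * (|c| / (ω * r0 ^ 2))) * |x - y|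
          ring
    · intro x _
      refine continuousOn_const.sub (ContinuousOn.mul ?_ continuousOn_const)
      refine continuousOn_const.div (by fun_prop) fun r h => ?_
      have : 0 < r := hr0.trans_le h.1
      positivity
    · intro r h x _
      rw [Real.norm_eq_abs]
      calc |ω - c / (ω * r ^ 2) * Real.sin x ^ 2| ≤ |ω| + |c / (ω * r ^ 2) * Real.sin x ^ 2| :=
            abs_sub _ _
        _ ≤ ω + |c| / (ω * r0 ^ 2) := by
          rw [abs_of_pos hω, abs_mul]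
          have h1 : |Real.sin x ^ 2| ≤ 1 := by
            rw [abs_pow]
            exact pow_le_one₀ (abs_nonneg _) (Real.abs_sin_le_one x)
          have h2 := mul_le_mul (hq r h) h1 (abs_nonneg _) hQ
          linarith
        _ = (L : ℝ) := rfl
    · show (L : ℝ) * max (r1 - r0) (r0 - r0) ≤ (a : ℝ) - ((0 : ℝ≥0) : ℝ)
      rw [sub_self, max_eq_left (sub_pos.2 hr).le, NNReal.coe_zero, sub_zero]
      exact le_of_eq rfl
  obtain ⟨θ, h1, h2⟩ := hpl.exists_eq_forall_mem_Icc_hasDerivWithinAt₀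
  exact ⟨θ, h1, h2⟩

theorem pru : PruStmt := by
  intro c ω r0 r1 hr0 hr hω
  obtain ⟨θ, hθ0, hθ⟩ := exists_phase c ω r0 r1 hr0 hr hω
  have cθ : ContinuousOn θ (Icc r0 r1) := fun r h => (hθ r h).continuousWithinAt
  have dθ : ∀ r ∈ Ioo r0 r1, HasDerivAt θ (ω - c / (ω * r ^ 2) * Real.sin (θ r) ^ 2) r :=
    fun r h => (hθ r (Ioo_subset_Icc_self h)).hasDerivAt (Icc_mem_nhds h.1 h.2)
  let g : ℝ → ℝ := fun s => c / (2 * ω * s ^ 2) * Real.sin (2 * θ s)
  have cg : ContinuousOn g (Icc r0 r1) := by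
    refine ContinuousOn.mul ?_ (Real.continuous_sin.comp_continuousOn (continuousOn_const.mul cθ))
    refine continuousOn_const.div (by fun_prop) fun r h => ?_
    have : 0 < r := hr0.trans_le h.1
    positivity
  let G : ℝ → ℝ := IccExtend hr.le ((Icc r0 r1).domRestrict g)
  have cG : Continuous G := (continuousOn_iff_continuous_domRestrict.1 cg).Icc_extend'
  have hG : ∀ r ∈ Icc r0 r1, G r = g r := fun r h => by
    show IccExtend hr.le ((Icc r0 r1).domRestrict g) r = g r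
    rw [IccExtend_of_mem _ _ h]
    rfl
  let ρ : ℝ → ℝ := fun r => Real.exp (∫ s in r0..r, G s)
  have dρ' : ∀ r, HasDerivAt ρ (ρ r * G r) r := fun r =>
    ((cG.integral_hasStrictDerivAt r0 r).hasDerivAt).exp
  have cρ : Continuous ρ := continuous_iff_continuousAt.2 fun r => (dρ' r).continuousAt
  have dρ : ∀ r ∈ Ioo r0 r1, HasDerivAt ρ (ρ r * (c / (2 * ω * r ^ 2) * Real.sin (2 * θ r))) r := by
    intro r h
    have := dρ' r
    rwa [hG r (Ioo_subset_Icc_self h)] at this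
  refine ⟨θ, ρ, ⟨cθ, cρ.continuousOn, dθ, dρ, hθ0, ?_, fun r _ => Real.exp_pos _⟩, ?_⟩
  · show Real.exp (∫ s in r0..r0, G s) = 1
    rw [intervalIntegral.integral_same, Real.exp_zero]
  · refine ⟨cρ.continuousOn.mul (Real.continuous_sin.comp_continuousOn cθ),
      (continuousOn_const.mul cρ.continuousOn).mul (Real.continuous_cos.comp_continuousOn cθ),
      ?_, ?_, ?_⟩
    · intro r h
      have hr' : r ≠ 0 := (hr0.trans h.1).ne'
      refine ((dρ r h).mul (dθ r h).sin).congr_deriv ?_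
      rw [Real.sin_two_mul]
      field_simp
      ring
    · intro r h
      have hr' : r ≠ 0 := (hr0.trans h.1).ne'
      refine (((dρ r h).const_mul ω).mul (dθ r h).cos).congr_deriv ?_
      have h1 : Real.cos (θ r) ^ 2 = 1 - Real.sin (θ r) ^ 2 := by
        rw [← Real.sin_sq_add_cos_sq (θ r)]
        ring
      rw [Real.sin_two_mul]
      have h2 : ω * (ρ r * (c / (2 * ω * r ^ 2) * (2 * Real.sin (θ r) * Real.cos (θ r)))) *
          Real.cos (θ r) = ω * (ρ r * (c / (2 * ω * r ^ 2) * (2 * Real.sin (θ r)))) *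
          Real.cos (θ r) ^ 2 := by ring
      rw [h2, h1]
      field_simp
      ring
    · show ρ r0 * Real.sin (θ r0) = 0
      rw [hθ0, Real.sin_zero, mul_zero]

end

end Pool.Agent.BE01.H51
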