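import Pool.Agent.BE01.StmtsS

/-!
BE01, module UNI: uniqueness for the initial value problem `w' ' = (c / r² - l) w`.
-/

namespace Pool.Agent.BE01.H51

open Set Filter Topology MeasureTheory
open scoped InnerProductSpace ENNReal

noncomputable section

/-- a nonnegative function with `E' ≤ K E`, `E r0 = 0` vanishes -/
theorem energy_zero {r0 r1 K : ℝ} (E E' : ℝ → ℝ) (hr : r0 < r1) (hc : ContinuousOn E (Icc r0 r1))
    (hd : ∀ r ∈ Ioo r0 r1, HasDerivAt E (E' r) r) (hle : ∀ r ∈ Ioo r0 r1, E' r ≤ K * E r)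
    (hnn : ∀ r ∈ Icc r0 r1, 0 ≤ E r) (h0 : E r0 = 0) : ∀ r ∈ Icc r0 r1, E r = 0 := by
  have hd2 : ∀ r ∈ Ioo r0 r1, HasDerivAt (fun r => E r * Real.exp (-(K * r)))
      (E' r * Real.exp (-(K * r)) + E r * (Real.exp (-(K * r)) * -(K * 1))) r := by
    intro r h
    exact (hd r h).mul (((hasDerivAt_id r).const_mul K).neg.exp)
  have hanti : AntitoneOn (fun r => E r * Real.exp (-(K * r))) (Icc r0 r1) := by
    apply antitoneOn_of_deriv_nonpos (convex_Icc r0 r1)
    · exact hc.mul (by fun_prop)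
    · intro r h
      rw [interior_Icc] at h
      exact (hd2 r h).differentiableAt.differentiableWithinAt
    · intro r h
      rw [interior_Icc] at h
      rw [(hd2 r h).deriv]
      have h1 := hle r h
      have h2 := Real.exp_pos (-(K * r))
      nlinarith
  intro r h
  have h1 := hanti (left_mem_Icc.2 hr.le) h h.1
  simp only [h0, zero_mul] at h1
  have h2 := Real.exp_pos (-(K * r))
  have h3 : E r ≤ 0 := by
    by_contra h4
    push Not at h4
    have := mul_pos h4 h2
    linarith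
  exact le_antisymm h3 (hnn r h)

theorem uni : UniStmt := by
  intro c l r0 r1 w w' v v' hr0 hr hw hv
  have hlip : ∀ r ∈ Ioo r0 r1, |c / r ^ 2 - l| ≤ |c| / r0 ^ 2 + |l| := by
    intro r h
    have h1 : |c / r ^ 2| ≤ |c| / r0 ^ 2 := by
      rw [abs_div, abs_of_pos (pow_pos (hr0.trans h.1) 2)]
      exact div_le_div_of_nonneg_left (abs_nonneg c) (pow_pos hr0 2)
        (pow_le_pow_left₀ hr0.le h.1.le 2)
    calc |c / r ^ 2 - l| ≤ |c / r ^ 2| + |l| := abs_sub _ _
      _ ≤ _ := by linarith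
  have key := energy_zero (K := 1 + (|c| / r0 ^ 2 + |l|))
    (fun r => (v' r0 * w r - w' r0 * v r) ^ 2 + (v' r0 * w' r - w' r0 * v' r) ^ 2)
    (fun r => 2 * (v' r0 * w r - w' r0 * v r) * (v' r0 * w' r - w' r0 * v' r) +
      2 * (v' r0 * w' r - w' r0 * v' r) * (v' r0 * ((c / r ^ 2 - l) * w r) -
        w' r0 * ((c / r ^ 2 - l) * v r))) hr ?_ ?_ ?_ ?_ ?_
  · intro r h
    have h1 := key r h
    have h2 : (v' r0 * w r - w' r0 * v r) ^ 2 = 0 := by
      nlinarith [sq_nonneg (v' r0 * w r - w' r0 * v r), sq_nonneg (v' r0 * w' r - w' r0 * v' r)]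
    have h3 := pow_eq_zero_iff (two_ne_zero) |>.1 h2
    linarith
  · exact (((continuousOn_const.mul hw.cw).sub (continuousOn_const.mul hv.cw)).pow 2).add
      (((continuousOn_const.mul hw.cw').sub (continuousOn_const.mul hv.cw')).pow 2)
  · intro r h
    have e1 := ((hw.dw r h).const_mul (v' r0)).sub ((hv.dw r h).const_mul (w' r0))
    have e2 := ((hw.dw' r h).const_mul (v' r0)).sub ((hv.dw' r h).const_mul (w' r0))
    have e3 := (e1.pow 2).add (e2.pow 2)
    refine e3.congr_deriv ?_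
    simp only [Pi.sub_apply]
    push_cast
    ring
  · intro r h
    have h1 := hlip r h
    set z := v' r0 * w r - w' r0 * v r
    set z' := v' r0 * w' r - w' r0 * v' r
    set q := c / r ^ 2 - l
    have h2 : v' r0 * (q * w r) - w' r0 * (q * v r) = q * z := by
      show _ = q * (v' r0 * w r - w' r0 * v r)
      ring
    rw [h2]
    have h3 : 2 * z * z' + 2 * z' * (q * z) = (1 + q) * (2 * z * z') := by ring
    rw [h3]
    have h4 : |2 * z * z'| ≤ z ^ 2 + z' ^ 2 := by
      rw [abs_le]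
      constructor <;> nlinarith [sq_nonneg (z + z'), sq_nonneg (z - z')]
    have h5 : |1 + q| ≤ 1 + (|c| / r0 ^ 2 + |l|) := by
      calc |1 + q| ≤ |1| + |q| := abs_add_le _ _
        _ ≤ _ := by rw [abs_one]; linarith
    calc (1 + q) * (2 * z * z') ≤ |(1 + q) * (2 * z * z')| := le_abs_self _
      _ = |1 + q| * |2 * z * z'| := abs_mul _ _
      _ ≤ _ := mul_le_mul h5 h4 (abs_nonneg _) (by positivity)
  · intro r _
    positivity
  · simp only [hw.left, hv.left]
    ring

end

end Pool.Agent.BE01.H51
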